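import Pool.Agent.T2H90.HX.Sound3

set_option autoImplicit false

namespace Pool.Agent.T2H90.HX

open Pool.Agent.Helper454
open Pool.Agent.Helper454.Wh
open OPiece

noncomputable section

set_option linter.unusedSectionVars false

/-- one piece of the diagram -/
def step (s : St) (p : OPiece) : St :=
  OPiece.casesOn (motive := fun _ => St) p
    (fun i b => ⟨Nat.succ s.m, insB i b s.d, opG s.m s.d i 0 b s.v⟩)
    (fun i => Nat.rec (motive := fun k => Vec k → St) (fun v => ⟨0, s.d, v⟩)
      (fun k _ v => ⟨k, delB i s.d, opD k s.d i v⟩) s.m s.v)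
    (fun i => ⟨s.m, swp i s.d, opZ s.m true s.d i s.v⟩)
    (fun i => ⟨s.m, swp i s.d, opZ s.m false s.d i s.v⟩)

def run (ww : OWord) : St → St :=
  List.rec (motive := fun _ => St → St) (fun s => s) (fun c _ ih s => ih (step s c)) ww

/-- the empty diagram -/
def s0 : St := ⟨0, 0, ([(0, [1])] : PM)⟩

/-- the number of arcs, the directions, and the first coefficient -/
def headP (s : St) : ℕ × ℕ × PM :=
  St.casesOn (motive := fun _ => ℕ × ℕ × PM) s fun m d =>
    Nat.casesOn (motive := fun m => Vec m → ℕ × ℕ × PM) m (fun v => (0, d, v)) fun m =>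
      Nat.casesOn (motive := fun m => Vec (m + 1) → ℕ × ℕ × PM) m
        (fun v => (1, d, List.casesOn (motive := fun _ => PM) (v : List PM) PM.zero fun w _ => w))
        fun m _ => (m + 2, d, PM.zero)

/-- whether the piece fits, and the new number of arcs and directions -/
def okP (m d : ℕ) : OPiece → Bool
  | .birth i _ => decide (i ≤ 2 * m)
  | .death i => decide (2 ≤ m) && decide (i + 2 ≤ 2 * m) && (tb d (i + 1) == !tb d i)
  | .pos i => decide (i + 2 ≤ 2 * m)
  | .neg i => decide (i + 2 ≤ 2 * m)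

def nextP (m d : ℕ) : OPiece → ℕ × ℕ
  | .birth i b => (m + 1, insB i b d)
  | .death i => (m - 1, delB i d)
  | .pos i => (m, swp i d)
  | .neg i => (m, swp i d)

def okW : OWord → ℕ → ℕ → Bool
  | [], _, _ => true
  | p :: ww, m, d => okP m d p && okW ww (nextP m d p).1 (nextP m d p).2

/-- the number of minima -/
def dc : OWord → ℕ
  | [] => 0
  | .death _ :: ww => dc ww + 1
  | .birth _ _ :: ww => dc ww
  | .pos _ :: ww => dc ww
  | .neg _ :: ww => dc ww

section
variable {R : Type} [CommRing R] {M : Type} [AddCommGroup M] [Module R M]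
variable {u : Rˣ} {m : R} {Λ : OWord → M}

variable (u m Λ) in
def Inv (s : St) (x : OWord) (j : ℕ) : Prop :=
  sem u m Λ s.m (tb s.d) s.v = m ^ j • ap (extd Λ) x ∧ Sup (2 * s.m) (tb s.d)

theorem st_ap (f : OWord → M) (x : OWord) (p : OPiece) : st (ap f x) p = ap f (x ++ [p]) := by
  funext y
  show f (x ++ (p :: y)) = f ((x ++ [p]) ++ y)
  simp

variable (hΛ : HomflyRules (u : R) (↑u⁻¹ : R) m Λ)
include hΛ

theorem step_sound (s : St) (p : OPiece) (x : OWord) (j : ℕ) (hok : okP s.m s.d p = true)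
    (h : Inv u m Λ s x j) : Inv u m Λ (step s p) (x ++ [p]) (j + dc [p]) ∧
      (step s p).m = (nextP s.m s.d p).1 ∧ (step s p).d = (nextP s.m s.d p).2 := by
  obtain ⟨k, d, v⟩ := s
  obtain ⟨h1, h2⟩ := h
  cases p with
  | birth i b =>
    have hi : i ≤ 2 * k := by simpa [okP] using hok
    refine ⟨⟨?_, ?_⟩, rfl, rfl⟩
    · show sem u m Λ (k + 1) (tb (insB i b d)) (opG k d i 0 b v) = m ^ (j + 0) • _
      rw [tb_insB, ← gD_zero, sem_opG hΛ k d i 0 b v (by omega) h2, G_zero]
      exact (congrArg (fun f => st f (birth i b)) h1).trans (by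
        rw [st_smul, st_ap, Nat.add_zero])
    · show Sup (2 * (k + 1)) (tb (insB i b d))
      rw [tb_insB, ← gD_zero]
      exact h2.gd b (by show i + 0 ≤ 2 * k; omega)
  | death i =>
    have hok' : (2 ≤ k ∧ i + 2 ≤ 2 * k) ∧ tb d (i + 1) = !tb d i := by
      simpa [okP] using hok
    obtain ⟨⟨hk, hi⟩, hdir⟩ := hok'
    obtain ⟨k, rfl⟩ : ∃ k', k = k' + 2 := ⟨k - 2, by omega⟩
    refine ⟨⟨?_, ?_⟩, rfl, rfl⟩
    · show sem u m Λ (k + 1) (tb (delB i d)) (opD (k + 1) d i v) = m ^ (j + 1) • _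
      rw [tb_delB, sem_opD hΛ k d i v hi h2 hdir]
      refine (congrArg (fun f => m • st f (death i)) h1).trans ?_
      rw [st_smul, st_ap, smul_smul, pow_succ']
    · show Sup (2 * (k + 1)) (tb (delB i d))
      rw [tb_delB]
      exact Sup.del (n := 2 * (k + 1)) h2 (by omega)
  | pos i =>
    have hi : i + 2 ≤ 2 * k := by simpa [okP] using hok
    refine ⟨⟨?_, ?_⟩, rfl, rfl⟩
    · show sem u m Λ k (tb (swp i d)) (opZ k true d i v) = m ^ (j + 0) • _
      rw [tb_swp, sem_opZ hΛ k true d i v hi h2, cr_true]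
      exact (congrArg (fun f => st f (pos i)) h1).trans (by
        rw [st_smul, st_ap, Nat.add_zero])
    · show Sup (2 * k) (tb (swp i d))
      rw [tb_swp]
      exact h2.swp hi
  | neg i =>
    have hi : i + 2 ≤ 2 * k := by simpa [okP] using hok
    refine ⟨⟨?_, ?_⟩, rfl, rfl⟩
    · show sem u m Λ k (tb (swp i d)) (opZ k false d i v) = m ^ (j + 0) • _
      rw [tb_swp, sem_opZ hΛ k false d i v hi h2, cr_false]
      exact (congrArg (fun f => st f (neg i)) h1).trans (by
        rw [st_smul, st_ap, Nat.add_zero])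
    · show Sup (2 * k) (tb (swp i d))
      rw [tb_swp]
      exact h2.swp hi

omit hΛ in
theorem dc_cons (p : OPiece) (ww : OWord) : dc (p :: ww) = dc [p] + dc ww := by
  cases p <;> simp [dc, Nat.add_comm]

theorem run_sound (ww : OWord) (s : St) (x : OWord) (j : ℕ) (hok : okW ww s.m s.d = true)
    (h : Inv u m Λ s x j) : Inv u m Λ (run ww s) (x ++ ww) (j + dc ww) := by
  induction ww generalizing s x j with
  | nil =>
    rw [List.append_nil]
    exact h
  | cons p ww ih =>
    simp only [okW, Bool.and_eq_true] at hok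
    obtain ⟨h1, h2, h3⟩ := step_sound hΛ s p x j hok.1 h
    have := ih (step s p) (x ++ [p]) (j + dc [p]) (by rw [h2, h3]; exact hok.2) h1
    rw [dc_cons, ← Nat.add_assoc]
    rwa [show x ++ p :: ww = x ++ [p] ++ ww by simp]

omit hΛ in
theorem inv_s0 : Inv u m Λ s0 [] 0 := by
  refine ⟨?_, ?_⟩
  · show evP u m [(0, [1])] • extd Λ = m ^ 0 • ap (extd Λ) []
    have : evP u m [(0, [1])] = 1 := by
      simp [evP, evZ, up_zero]
    rw [this, pow_zero, one_smul, one_smul]
    rfl
  · intro q _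
    show tb 0 q = false
    rw [tb_eq]
    exact Nat.zero_testBit q

omit hΛ in
theorem headP_eq {s : St} {d : ℕ} {p : PM} (h : headP s = (1, d, p)) (hp : p ≠ PM.zero) :
    ∃ ps : List PM, s = ⟨1, d, p :: ps⟩ := by
  obtain ⟨k, d', v⟩ := s
  match k, v, h with
  | 0, v, h =>
    have : (0 : ℕ) = 1 := congrArg Prod.fst h
    omega
  | 1, v, h =>
    have h1 : d' = d := congrArg (fun t => t.2.1) h
    have h2 : (List.casesOn (motive := fun _ => PM) (v : List PM) PM.zero fun w _ => w) = p :=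
      congrArg (fun t => t.2.2) h
    subst h1
    match v, h2 with
    | [], h2 => exact absurd h2.symm hp
    | q :: qs, h2 =>
      have h3 : q = p := h2
      subst h3
      exact ⟨qs, rfl⟩
  | k + 2, v, h =>
    have : k + 2 = 1 := congrArg Prod.fst h
    omega

theorem value (ww : OWord) (d : ℕ) (p : PM) (hok : okW ww 0 0 = true)
    (hrun : headP (run ww s0) = (1, d, p)) (hp : p ≠ PM.zero) (hd : tb d 1 = !tb d 0)
    (hu : OClosed (ww ++ [death 0])) :
    m ^ dc ww • Λ (ww ++ [death 0]) = evP u m p • Λ [birth 0 (tb d 0), death 0] := by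
  obtain ⟨ps, hs⟩ := headP_eq hrun hp
  have h1 := run_sound hΛ ww s0 [] 0 hok inv_s0
  rw [hs] at h1
  have h2 : sem u m Λ 1 (tb d) (p :: ps : List PM) = m ^ (0 + dc ww) • ap (extd Λ) ([] ++ ww) := h1.1
  have h3 := sem_one (u := u) (m := m) (Λ := Λ) (tb d) hd p ps
  have h4 := congrFun (h2.symm.trans h3) [death 0]
  have h5 : m ^ (0 + dc ww) • extd Λ ([] ++ ww ++ [death 0]) =
    evP u m p • extd Λ [birth 0 (tb d 0), death 0] := h4
  rw [Nat.zero_add, List.nil_append, extd, if_pos hu, extd, if_pos] at h5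
  · exact h5
  · cases tb d 0 <;> simp [OClosed, Wh.below, OPiece.below, insD]

end

end

end Pool.Agent.T2H90.HX
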