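import Pool.Agent.Helper454.Kauf.Engine
import Pool.Agent.Helper454.Wh.Engine

set_option autoImplicit false

namespace Pool.Agent.T2H90.HX

open Pool.Agent.Helper454
open Pool.Agent.Helper454.Wh (addL mapL tb eqB rem swp mvL mvR seqL seqR insB delB)

noncomputable section

/-- Laurent polynomials in `l` over polynomials in `m` -/
abbrev PM : Type := List (ℤ × List ℤ)

namespace PM

def zero : PM := []
def add (p q : PM) : PM := Kauf.Poly.add p q
/-- multiplication by `l⁻²` -/
def mulW (p : PM) : PM := Kauf.Poly.mulA (-2) p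
/-- multiplication by `l²` -/
def mulW2 (p : PM) : PM := Kauf.Poly.mulA 2 p
/-- multiplication by `m` -/
def mulM (p : PM) : PM := Kauf.Poly.mulZ p
/-- multiplication by `l m` -/
def fC (p : PM) : PM := Kauf.Poly.mulZ (Kauf.Poly.mulA 1 p)
/-- multiplication by `-l⁻¹ m` -/
def fD (p : PM) : PM := Kauf.Poly.neg (Kauf.Poly.mulZ (Kauf.Poly.mulA (-1) p))
/-- multiplication by `l⁻¹ - l` -/
def fL (p : PM) : PM := Kauf.Poly.add (Kauf.Poly.mulA (-1) p) (Kauf.Poly.neg (Kauf.Poly.mulA 1 p))

end PM

def Vec (m : ℕ) : Type := Nat.rec (motive := fun _ => Type) PM (fun _ ih => List ih) m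

def zero (m : ℕ) : Vec m := Nat.rec (motive := fun m => Vec m) PM.zero (fun _ _ => List.nil) m

def add (m : ℕ) : Vec m → Vec m → Vec m :=
  Nat.rec (motive := fun m => Vec m → Vec m → Vec m) PM.add (fun _ ih => addL ih) m

def mapV (f : PM → PM) (m : ℕ) : Vec m → Vec m :=
  Nat.rec (motive := fun m => Vec m → Vec m) f (fun _ ih => mapL ih) m

def push (m e : ℕ) (v : Vec m) : Vec (m + 1) :=
  Nat.rec (motive := fun _ => List (Vec m)) [v] (fun _ ih => zero m :: ih) e

/-! ### directions as bit masks -/

/-- sum over the admissible entries `e, e+1, ...` (only those `≤ 2m`) of `term` -/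
def foldV {m k : ℕ} (d : ℕ) (term : ℕ → Vec m → Vec k) (v : List (Vec m)) : ℕ → Vec k :=
  List.rec (motive := fun _ => ℕ → Vec k) (fun _ => zero k)
    (fun v _ ih e => add k
      (cond (Nat.ble e (Nat.mul 2 m))
        (cond (eqB (tb d (Nat.add e 1)) (tb d 0)) (zero k) (term e v)) (zero k))
      (ih (Nat.succ e))) v

def opG (m : ℕ) : ℕ → ℕ → ℕ → Bool → Vec m → Vec (m + 1) :=
  Nat.rec (motive := fun m => ℕ → ℕ → ℕ → Bool → Vec m → Vec (m + 1))
    (fun _ _ g _ v => push 0 g v)
    (fun m ih d l g b v => cond (Nat.beq l 0) (push (m + 1) g v)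
      (foldV (m := m) (k := m + 2) d (fun e w =>
        cond (Nat.ble (Nat.add e 2) l)
          (push (m + 1) e (ih (rem e d) (Nat.sub l 2) g b w))
        (cond (Nat.ble (Nat.add l g) (Nat.add e 1))
          (push (m + 1) (Nat.add e 2) (ih (rem e d) (Nat.sub l 1) g b w))
        (cond (eqB (tb d 0) b)
          (add (m + 2)
            (mapV PM.mulW (m + 2) (push (m + 1) (Nat.add e 1)
              (ih (rem e d) (Nat.sub l 1) (Nat.sub g 1) b w)))
            (mapV PM.fD (m + 2) (push (m + 1) (Nat.add l g)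
              (ih (rem e d) (Nat.sub l 1) (Nat.sub (Nat.add e 1) l) b w))))
          (add (m + 2)
            (mapV PM.mulW2 (m + 2) (push (m + 1) (Nat.add e 1)
              (ih (rem e d) (Nat.sub l 1) (Nat.sub g 1) b w)))
            (mapV PM.fC (m + 2) (push (m + 1) (Nat.sub l 1)
              (ih (rem e d) e (Nat.sub (Nat.add l g) (Nat.add e 2)) b w)))))))
        v 0)) m

/-- `c = true`: positive piece, `c = false`: negative piece -/
def opZ (m : ℕ) : Bool → ℕ → ℕ → Vec m → Vec m :=
  Nat.rec (motive := fun m => Bool → ℕ → ℕ → Vec m → Vec m)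
    (fun _ _ _ v => v)
    (fun m ih c d j v => foldV (m := m) (k := m + 1) d (fun e w =>
      cond (Nat.beq j 0)
        (cond (Nat.beq e 0) (push m 0 w)
          (cond c
            (cond (eqB (tb d 1) (tb d 0))
              (add (m + 1) (mapV PM.mulW2 (m + 1) (opG m (rem e d) 1 (Nat.sub e 1) (tb d 0) w))
                (mapV PM.fC (m + 1) (push m e w)))
              (add (m + 1) (mapV PM.mulW (m + 1) (opG m (rem e d) 1 (Nat.sub e 1) (tb d 0) w))
                (mapV PM.fD (m + 1) (push m 0 (seqR (ih false) (Nat.sub e 1) (rem e d) w)))))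
            (opG m (rem e d) 1 (Nat.sub e 1) (tb d 0) w)))
      (cond (Nat.ble (Nat.add j 1) e) (push m e (ih c (rem e d) (Nat.sub j 1) w))
      (cond (Nat.ble (Nat.add e 2) j) (push m e (ih c (rem e d) (Nat.sub j 2) w))
      (cond (Nat.beq j (Nat.add e 1))
        (cond c
          (cond (eqB (tb d (Nat.add e 2)) (tb d 0))
            (add (m + 1) (mapV PM.mulW (m + 1) (push m (Nat.add e 1) w))
              (mapV PM.fD (m + 1) (opG m (mvL e (rem e d)) (Nat.add e 1) 0 (tb d 0)
                (seqL (ih true) e (rem e d) w))))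
            (add (m + 1) (mapV PM.mulW2 (m + 1) (push m (Nat.add e 1) w))
              (mapV PM.fC (m + 1) (push m e w))))
          (push m (Nat.add e 1) w))
        (cond c (push m (Nat.sub e 1) w)
          (cond (eqB (tb d e) (tb d 0))
            (add (m + 1) (mapV PM.mulW2 (m + 1) (push m (Nat.sub e 1) w))
              (mapV PM.fC (m + 1) (opG m (mvL (Nat.sub e 1) (rem e d)) e 0
                (cond (tb d 0) false true) (seqL (ih true) (Nat.sub e 1) (rem e d) w))))
            (add (m + 1) (mapV PM.mulW (m + 1) (push m (Nat.sub e 1) w))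
              (mapV PM.fD (m + 1) (push m e w))))))))) v 0) m

/-- `m` times the effect of `death j` -/
def opD (m : ℕ) : ℕ → ℕ → Vec (m + 1) → Vec m :=
  Nat.rec (motive := fun m => ℕ → ℕ → Vec (m + 1) → Vec m)
    (fun _ _ v => List.casesOn (motive := fun _ => PM) (v : List PM) PM.zero (fun w _ => PM.fL w))
    (fun m ih d j v => foldV (m := m + 1) (k := m + 1) d (fun e w =>
      cond (Nat.beq j 0)
        (cond (Nat.beq e 0) (mapV PM.fL (m + 1) w)
          (mapV PM.mulM (m + 1) (seqR (opZ (m + 1) false) (Nat.sub e 1) (rem e d) w)))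
      (cond (Nat.ble (Nat.add j 1) e) (push m (Nat.sub e 2) (ih (rem e d) (Nat.sub j 1) w))
      (cond (Nat.ble (Nat.add e 2) j) (push m e (ih (rem e d) (Nat.sub j 2) w))
      (cond (Nat.beq j (Nat.add e 1))
        (mapV PM.mulM (m + 1) (seqL (opZ (m + 1) true) e (rem e d) w))
        (mapV PM.mulM (m + 1) (seqL (opZ (m + 1) true) (Nat.sub e 1) (rem e d) w)))))) v 0) m

/-! ### running a word -/

/-- a state: number of arcs, directions, vector -/
structure St where
  m : ℕ
  d : ℕ
  v : Vec m

end

end Pool.Agent.T2H90.HX
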