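import Pool.Agent.Helper454.Wh.DirLem
import Pool.Agent.T2H90.HX.Engine

set_option autoImplicit false

namespace Pool.Agent.T2H90.HX

open Pool.Agent.Helper454
open Pool.Agent.Helper454.Wh
open OPiece

noncomputable section

set_option linter.unusedSectionVars false
set_option linter.unreachableTactic false
set_option linter.unusedTactic false
set_option linter.unnecessarySeqFocus false

/-! ### evaluation of polynomials -/

section
variable {R : Type} [CommRing R]

/-- a polynomial in `m` -/
def evZ (m : R) : List ℤ → R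
  | [] => 0
  | x :: p => (x : R) + m * evZ m p

theorem evZ_cons (m : R) (x : ℤ) (p : List ℤ) : evZ m (Kauf.ZP.cons x p) = (x : R) + m * evZ m p := by
  cases p with
  | nil =>
    show evZ m (if x = 0 then [] else [x]) = _
    split
    · rename_i h
      rw [h, evZ, Int.cast_zero, mul_zero, add_zero]
    · rfl
  | cons y p => rfl

theorem evZ_add (m : R) (p q : List ℤ) : evZ m (Kauf.ZP.add p q) = evZ m p + evZ m q := by
  induction p generalizing q with
  | nil => simp [Kauf.ZP.add, evZ]
  | cons x p ih =>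
    cases q with
    | nil => simp [Kauf.ZP.add, evZ]
    | cons y q =>
      rw [Kauf.ZP.add, evZ_cons, ih, evZ, evZ, Int.cast_add]
      ring

theorem evZ_neg (m : R) (p : List ℤ) : evZ m (Kauf.ZP.neg p) = -evZ m p := by
  induction p with
  | nil => simp [Kauf.ZP.neg, evZ]
  | cons x p ih =>
    have : Kauf.ZP.neg (x :: p) = (-x) :: Kauf.ZP.neg p := rfl
    rw [this, evZ, ih, evZ, Int.cast_neg]
    ring

/-- the power `u^i` as an element of the ring -/
def up (u : Rˣ) (i : ℤ) : R := ((u ^ i : Rˣ) : R)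

theorem up_add (u : Rˣ) (i j : ℤ) : up u (i + j) = up u i * up u j := by
  rw [up, zpow_add, Units.val_mul]; rfl

theorem up_zero (u : Rˣ) : up u 0 = 1 := by rw [up, zpow_zero, Units.val_one]

theorem up_one (u : Rˣ) : up u 1 = (u : R) := by rw [up, zpow_one]

theorem up_neg_one (u : Rˣ) : up u (-1) = (↑u⁻¹ : R) := by rw [up, zpow_neg, zpow_one]

theorem up_two (u : Rˣ) : up u 2 = (u : R) * (u : R) := by
  rw [show (2 : ℤ) = 1 + 1 by norm_num, up_add, up_one]

theorem up_neg_two (u : Rˣ) : up u (-2) = (↑u⁻¹ : R) * (↑u⁻¹ : R) := by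
  rw [show (-2 : ℤ) = -1 + -1 by norm_num, up_add, up_neg_one]

def evP (u : Rˣ) (m : R) : PM → R
  | [] => 0
  | (i, x) :: p => up u i * evZ m x + evP u m p

variable {u : Rˣ} {m : R}

theorem evP_zero : evP u m PM.zero = 0 := rfl

theorem evP_cons (i : ℤ) (x : List ℤ) (p : PM) :
    evP u m (Kauf.Poly.cons i x p) = up u i * evZ m x + evP u m p := by
  cases x with
  | nil => simp [Kauf.Poly.cons, evZ]
  | cons y x => rfl

theorem evP_add (p q : PM) : evP u m (PM.add p q) = evP u m p + evP u m q := by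
  show evP u m (Kauf.Poly.add p q) = _
  induction p generalizing q with
  | nil => simp [Kauf.Poly.add, evP]
  | cons t p ih =>
    obtain ⟨i, x⟩ := t
    rw [Kauf.Poly.add]
    induction q with
    | nil => simp [Kauf.Poly.addAux, evP]
    | cons t q ihq =>
      obtain ⟨j, y⟩ := t
      rw [Kauf.Poly.addAux]
      split
      · rw [evP, ih, evP, evP]; ring
      · split
        · rename_i h1 h2
          subst h2
          rw [evP_cons, ih, evZ_add, evP, evP]
          ring
        · rw [evP, ihq, evP, evP]; ring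

theorem evP_neg (p : PM) : evP u m (Kauf.Poly.neg p) = -evP u m p := by
  induction p with
  | nil => simp [Kauf.Poly.neg, evP]
  | cons t p ih =>
    obtain ⟨i, x⟩ := t
    have : Kauf.Poly.neg ((i, x) :: p) = (i, Kauf.ZP.neg x) :: Kauf.Poly.neg p := rfl
    rw [this, evP, ih, evP, evZ_neg]
    ring

theorem evP_mulZ (p : PM) : evP u m (Kauf.Poly.mulZ p) = m * evP u m p := by
  induction p with
  | nil => simp [Kauf.Poly.mulZ, evP]
  | cons t p ih =>
    obtain ⟨i, x⟩ := t
    have : Kauf.Poly.mulZ ((i, x) :: p) = (i, 0 :: x) :: Kauf.Poly.mulZ p := rfl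
    rw [this, evP, ih, evP, evZ, Int.cast_zero, zero_add]
    ring

theorem evP_mulA (k : ℤ) (p : PM) : evP u m (Kauf.Poly.mulA k p) = up u k * evP u m p := by
  induction p with
  | nil => simp [Kauf.Poly.mulA, evP]
  | cons t p ih =>
    obtain ⟨i, x⟩ := t
    have : Kauf.Poly.mulA k ((i, x) :: p) = (i + k, x) :: Kauf.Poly.mulA k p := rfl
    rw [this, evP, ih, evP, up_add]
    ring

theorem evP_mulM (p : PM) : evP u m (PM.mulM p) = m * evP u m p := evP_mulZ p

theorem evP_mulW (p : PM) : evP u m (PM.mulW p) = (↑u⁻¹ : R) * (↑u⁻¹ : R) * evP u m p := by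
  rw [PM.mulW, evP_mulA, up_neg_two]

theorem evP_mulW2 (p : PM) : evP u m (PM.mulW2 p) = (u : R) * (u : R) * evP u m p := by
  rw [PM.mulW2, evP_mulA, up_two]

theorem evP_fC (p : PM) : evP u m (PM.fC p) = (u : R) * m * evP u m p := by
  rw [PM.fC, evP_mulZ, evP_mulA, up_one]
  ring

theorem evP_fD (p : PM) : evP u m (PM.fD p) = -((↑u⁻¹ : R) * m) * evP u m p := by
  rw [PM.fD, evP_neg, evP_mulZ, evP_mulA, up_neg_one]
  ring

theorem evP_fL (p : PM) : evP u m (PM.fL p) = ((↑u⁻¹ : R) - (u : R)) * evP u m p := by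
  have h := evP_add (u := u) (m := m) (Kauf.Poly.mulA (-1) p) (Kauf.Poly.neg (Kauf.Poly.mulA 1 p))
  rw [evP_neg, evP_mulA, evP_mulA, up_one, up_neg_one] at h
  exact h.trans (by ring)

end

/-! ### semantics of vectors -/

section
variable {R : Type} [CommRing R] {M : Type} [AddCommGroup M] [Module R M]
variable (u : Rˣ) (m : R) (Λ : OWord → M)

def foldS {k : ℕ} (D : ℕ → Bool) (t : ℕ → Vec k → (OWord → M)) :
    List (Vec k) → ℕ → (OWord → M)
  | [], _ => 0
  | v :: vs, e => (if e ≤ 2 * k ∧ D (e + 1) = !D 0 then t e v else 0) + foldS D t vs (e + 1)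

theorem foldS_cons {k : ℕ} (D : ℕ → Bool) (t : ℕ → Vec k → (OWord → M)) (v : Vec k)
    (vs : List (Vec k)) (e : ℕ) : foldS D t (v :: vs) e =
      (if e ≤ 2 * k ∧ D (e + 1) = !D 0 then t e v else 0) + foldS D t vs (e + 1) := rfl

def sem : (k : ℕ) → (ℕ → Bool) → Vec k → (OWord → M)
  | 0, _, p => evP u m p • extd Λ
  | k + 1, D, v => foldS D (fun e x => G 0 e (D 0) (sem k (remD e D) x)) v 0

theorem sem_zero (k : ℕ) (D : ℕ → Bool) : sem u m Λ k D (zero k) = 0 := by
  cases k with
  | zero =>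
    show evP u m PM.zero • extd Λ = 0
    rw [evP_zero, zero_smul]
  | succ k => rfl

theorem foldS_add {k : ℕ} (D : ℕ → Bool) (t : ℕ → Vec k → (OWord → M))
    (f : Vec k → Vec k → Vec k) (h : ∀ e v x, t e (f v x) = t e v + t e x) (v x : List (Vec k))
    (e : ℕ) : foldS D t (addL f v x) e = foldS D t v e + foldS D t x e := by
  induction v generalizing e x with
  | nil =>
    show foldS D t x e = _
    simp [foldS]
  | cons a v ih =>
    cases x with
    | nil =>
      show foldS D t (a :: v) e = _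
      simp [foldS]
    | cons b x =>
      show foldS D t (f a b :: addL f v x) e = _
      rw [foldS, ih, foldS, foldS]
      split
      · rw [h]; abel
      · abel

variable {u m} {Λ}

theorem sem_add (k : ℕ) (D : ℕ → Bool) (v x : Vec k) :
    sem u m Λ k D (add k v x) = sem u m Λ k D v + sem u m Λ k D x := by
  induction k generalizing D with
  | zero =>
    show evP u m (PM.add v x) • extd Λ = evP u m v • extd Λ + evP u m x • extd Λ
    exact (congrArg (· • extd Λ) (evP_add v x)).trans (add_smul _ _ _)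
  | succ k ih =>
    refine foldS_add D (fun e x => G 0 e (D 0) (sem u m Λ k (remD e D) x)) (add k) ?_ v x 0
    intro e v x
    show G 0 e (D 0) (sem u m Λ k (remD e D) (add k v x)) = _
    rw [ih, G_lin]

theorem foldS_map {k : ℕ} (D : ℕ → Bool) (t : ℕ → Vec k → (OWord → M)) (f : Vec k → Vec k) (c : R)
    (h : ∀ e v, t e (f v) = c • t e v) (v : List (Vec k)) (e : ℕ) :
    foldS D t (mapL f v) e = c • foldS D t v e := by
  induction v generalizing e with
  | nil =>
    show foldS D t [] e = _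
    simp [foldS]
  | cons a v ih =>
    show foldS D t (f a :: mapL f v) e = _
    rw [foldS, ih, foldS, smul_add]
    split
    · rw [h]
    · rw [smul_zero]

theorem sem_map (f : PM → PM) (c : R) (h : ∀ p, evP u m (f p) = c * evP u m p) (k : ℕ)
    (D : ℕ → Bool) (v : Vec k) : sem u m Λ k D (mapV f k v) = c • sem u m Λ k D v := by
  induction k generalizing D with
  | zero =>
    show evP u m (f v) • extd Λ = c • evP u m v • extd Λ
    exact (congrArg (· • extd Λ) (h v)).trans (mul_smul _ _ _)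
  | succ k ih =>
    refine foldS_map D (fun e x => G 0 e (D 0) (sem u m Λ k (remD e D) x)) (mapV f k) c ?_ v 0
    intro e v
    show G 0 e (D 0) (sem u m Λ k (remD e D) (mapV f k v)) = _
    rw [ih, G_smul]

theorem sem_mulW (k : ℕ) (D : ℕ → Bool) (v : Vec k) :
    sem u m Λ k D (mapV PM.mulW k v) = ((↑u⁻¹ : R) * (↑u⁻¹ : R)) • sem u m Λ k D v :=
  sem_map _ _ (evP_mulW) k D v

theorem sem_mulW2 (k : ℕ) (D : ℕ → Bool) (v : Vec k) :
    sem u m Λ k D (mapV PM.mulW2 k v) = ((u : R) * (u : R)) • sem u m Λ k D v :=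
  sem_map _ _ (evP_mulW2) k D v

theorem sem_fC (k : ℕ) (D : ℕ → Bool) (v : Vec k) :
    sem u m Λ k D (mapV PM.fC k v) = ((u : R) * m) • sem u m Λ k D v :=
  sem_map _ _ (evP_fC) k D v

theorem sem_fD (k : ℕ) (D : ℕ → Bool) (v : Vec k) :
    sem u m Λ k D (mapV PM.fD k v) = -(((↑u⁻¹ : R) * m) • sem u m Λ k D v) := by
  rw [sem_map _ _ (evP_fD) k D v, neg_smul]

theorem sem_fL (k : ℕ) (D : ℕ → Bool) (v : Vec k) :
    sem u m Λ k D (mapV PM.fL k v) = ((↑u⁻¹ : R) - (u : R)) • sem u m Λ k D v :=
  sem_map _ _ (evP_fL) k D v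

theorem sem_mulM (k : ℕ) (D : ℕ → Bool) (v : Vec k) :
    sem u m Λ k D (mapV PM.mulM k v) = m • sem u m Λ k D v :=
  sem_map _ _ evP_mulM k D v

theorem foldS_push {k : ℕ} (D : ℕ → Bool) (e s : ℕ) (v : Vec k) (h : s + e ≤ 2 * k)
    (hD : D (s + e + 1) = !D 0) :
    foldS D (fun e x => G 0 e (D 0) (sem u m Λ k (remD e D) x)) (push k e v) s =
      G 0 (s + e) (D 0) (sem u m Λ k (remD (s + e) D) v) := by
  induction e generalizing s with
  | zero =>
    show (if s ≤ 2 * k ∧ D (s + 1) = !D 0 then G 0 s (D 0) (sem u m Λ k (remD s D) v) else 0) +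
      0 = _
    rw [if_pos ⟨by omega, hD⟩, add_zero]
    rfl
  | succ e ih =>
    refine (foldS_cons D _ (zero k) (push k e v) s).trans ?_
    rw [ih (s + 1) (by omega) (by rw [← hD]; congr 1; omega), sem_zero, G_zero']
    rw [show s + (e + 1) = s + 1 + e by omega]
    simp

theorem sem_push (k e : ℕ) (D : ℕ → Bool) (v : Vec k) (h : e ≤ 2 * k) (hD : D (e + 1) = !D 0) :
    sem u m Λ (k + 1) D (push k e v) = G 0 e (D 0) (sem u m Λ k (remD e D) v) := by
  show foldS D _ (push k e v) 0 = _
  rw [foldS_push D e 0 v (by omega) (by rw [Nat.zero_add]; exact hD), Nat.zero_add]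

theorem fold_sound {k j : ℕ} (d : ℕ) (D' : ℕ → Bool) (term : ℕ → Vec k → Vec j)
    (φ : (OWord → M) →ₗ[R] (OWord → M))
    (h : ∀ e x, e ≤ 2 * k → tb d (e + 1) = !tb d 0 →
      sem u m Λ j D' (term e x) = φ (G 0 e (tb d 0) (sem u m Λ k (remD e (tb d)) x)))
    (v : List (Vec k)) (e : ℕ) :
    sem u m Λ j D' (foldV d term v e) =
      φ (foldS (tb d) (fun e x => G 0 e (tb d 0) (sem u m Λ k (remD e (tb d)) x)) v e) := by
  induction v generalizing e with
  | nil =>
    show sem u m Λ j D' (zero j) = φ 0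
    rw [sem_zero, map_zero]
  | cons a v ih =>
    show sem u m Λ j D' (add j (cond (Nat.ble e (Nat.mul 2 k))
        (cond (eqB (tb d (Nat.add e 1)) (tb d 0)) (zero j) (term e a)) (zero j))
      (foldV d term v (e + 1))) = _
    rw [sem_add, ih, foldS, map_add]
    congr 1
    simp only [Bool.cond_eq_ite, Nat.ble_eq, eqB_iff]
    show sem u m Λ j D' (if e ≤ 2 * k then
      (if tb d (e + 1) = tb d 0 then zero j else term e a) else zero j) = _
    by_cases h1 : e ≤ 2 * k
    · by_cases h2 : tb d (e + 1) = tb d 0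
      · have h3 : ¬ (e ≤ 2 * k ∧ tb d (e + 1) = !tb d 0) := by
          rintro ⟨_, h3⟩
          rw [h2] at h3
          cases h4 : tb d 0 <;> simp [h4] at h3
        rw [if_pos h1, if_pos h2, if_neg h3, sem_zero, map_zero]
      · have h3 : tb d (e + 1) = !tb d 0 := by
          cases h4 : tb d 0 <;> cases h5 : tb d (e + 1) <;> simp_all
        rw [if_pos h1, if_neg h2, if_pos ⟨h1, h3⟩, h e a h1 h3]
    · rw [if_neg h1, if_neg (fun hh => h1 hh.1), sem_zero, map_zero]

theorem foldS_mem {k n : ℕ} (D D' : ℕ → Bool) (t : ℕ → Vec k → (OWord → M))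
    (h : ∀ e x, e ≤ 2 * k → D (e + 1) = !D 0 → t e x ∈ S R Λ n D') (v : List (Vec k)) (e : ℕ) :
    foldS D t v e ∈ S R Λ n D' := by
  induction v generalizing e with
  | nil => exact Submodule.zero_mem _
  | cons a v ih =>
    rw [foldS]
    refine Submodule.add_mem _ ?_ (ih _)
    split
    · rename_i h1
      exact h e a h1.1 h1.2
    · exact Submodule.zero_mem _

theorem sem_mem (k : ℕ) (D : ℕ → Bool) (hD : ∀ q, 2 * k ≤ q → D q = false) (v : Vec k) :
    sem u m Λ k D v ∈ S R Λ (2 * k) D := by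
  induction k generalizing D with
  | zero =>
    have : D = noD := by
      funext q
      exact hD q (by omega)
    subst this
    exact Submodule.smul_mem _ _ (Submodule.subset_span ⟨[], rfl, rfl⟩)
  | succ k ih =>
    refine foldS_mem D D _ ?_ v 0
    intro e x he hDe
    have h1 : ∀ q, 2 * k ≤ q → remD e D q = false := by
      intro q hq
      simp only [remD]
      split_ifs <;> first | (exfalso; omega) | exact hD _ (by omega)
    have := G_mem (l := 0) (D 0) (ih (remD e D) h1 x) (show 0 + e ≤ 2 * k by omega)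
    rw [gD_remD e D hDe] at this
    rwa [show 2 * (k + 1) = 2 * k + 2 by omega]

end

end

end Pool.Agent.T2H90.HX
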