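import Pool.Agent.T2H90.HX.Sound

set_option autoImplicit false

namespace Pool.Agent.T2H90.HX

open Pool.Agent.Helper454
open Pool.Agent.Helper454.Wh
open OPiece

noncomputable section

set_option linter.unusedSectionVars false

theorem cond_t {α : Type} {b : Bool} (h : b = true) (x y : α) : cond b x y = x := by
  rw [h]; rfl

theorem cond_f {α : Type} {b : Bool} (h : b = false) (x y : α) : cond b x y = y := by
  rw [h]; rfl

theorem ble_t {x y : ℕ} (h : x ≤ y) : Nat.ble x y = true := Nat.ble_eq_true_of_le h

theorem ble_f {x y : ℕ} (h : ¬ x ≤ y) : Nat.ble x y = false := by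
  cases h2 : Nat.ble x y
  · rfl
  · exact absurd (Nat.le_of_ble_eq_true h2) h

theorem beq_t {x y : ℕ} (h : x = y) : Nat.beq x y = true := by
  subst h
  exact Nat.beq_refl _

theorem beq_f {x y : ℕ} (h : x ≠ y) : Nat.beq x y = false := by
  cases h2 : Nat.beq x y
  · rfl
  · exact absurd (Nat.eq_of_beq_eq_true h2) h

theorem eqB_t {x y : Bool} (h : x = y) : eqB x y = true := (eqB_iff x y).2 h

theorem eqB_f {x y : Bool} (h : x ≠ y) : eqB x y = false := by
  cases h2 : eqB x y
  · rfl
  · exact absurd ((eqB_iff x y).1 h2) h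

section
variable {R : Type} [CommRing R] {M : Type} [AddCommGroup M] [Module R M]
variable {u : Rˣ} {m : R} {Λ : OWord → M}

/-- `G l g` as a linear map -/
def GLin (l g : ℕ) (b : Bool) : (OWord → M) →ₗ[R] (OWord → M) where
  toFun := G l g b
  map_add' f h := G_lin l g b f h
  map_smul' c f := G_smul l g b c f

theorem st_cr_lin (c : Bool) (j : ℕ) (f : OWord → M) : stL R (cr c j) f = st f (cr c j) := rfl

theorem sem_push' {k e : ℕ} {D E : ℕ → Bool} {a : Bool} (v : Vec k) (h : e ≤ 2 * k)
    (h0 : D 0 = a) (h1 : D (e + 1) = !a) (hE : remD e D = E) :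
    sem u m Λ (k + 1) D (push k e v) = G 0 e a (sem u m Λ k E v) := by
  subst h0
  subst hE
  exact sem_push k e D v h h1

variable (hΛ : HomflyRules (u : R) (↑u⁻¹ : R) m Λ)
include hΛ

theorem sem_opG (k : ℕ) (d l g : ℕ) (b : Bool) (v : Vec k) (h : l + g ≤ 2 * k)
    (hd : Sup (2 * k) (tb d)) :
    sem u m Λ (k + 1) (gD l g b (tb d)) (opG k d l g b v) = G l g b (sem u m Λ k (tb d) v) := by
  induction k generalizing d l g with
  | zero =>
    obtain rfl : l = 0 := by omega
    obtain rfl : g = 0 := by omega
    exact sem_push' v (by omega) (gD_left _ _ _ _) (gD_right 0 0 b _) (rem_gD0 _ _ _)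
  | succ k ih =>
    by_cases hl : l = 0
    · subst hl
      have e1 := gD_right 0 g b (tb d)
      rw [Nat.zero_add] at e1
      exact sem_push' v (by omega) (gD_left _ _ _ _) e1 (rem_gD0 _ _ _)
    · show sem u m Λ (k + 2) (gD l g b (tb d)) (cond (Nat.beq l 0) (push (k + 1) g v)
        (foldV (m := k) (k := k + 2) d _ v 0)) = _
      rw [cond_f (beq_f hl)]
      refine fold_sound d _ _ (GLin l g b) ?_ v 0
      intro e x he hD
      show _ = G l g b (G 0 e (tb d 0) (sem u m Λ k (remD e (tb d)) x))
      have hs := hd.rem he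
      have hf := T_of_mem (sem_mem (R := R) (u := u) (m := m) (Λ := Λ) k (remD e (tb d)) hs x)
      have hf' := sem_mem (R := R) (u := u) (m := m) (Λ := Λ) k (remD e (tb d)) hs x
      rw [← tb_rem'] at hs hf hf'
      rw [← tb_rem']

      by_cases h1 : e + 2 ≤ l
      · rw [cond_t (ble_t h1 : Nat.ble (Nat.add e 2) l = true)]
        obtain ⟨l', rfl⟩ : ∃ l', l = l' + 2 := ⟨l - 2, by omega⟩
        rw [show Nat.sub (l' + 2) 2 = l' from rfl,
          G_far hΛ hf (tb d 0) b (by omega) (by omega), ← ih (rem e d) l' g x (by omega) hs]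
        exact sem_push' _ (by omega) (gD_lt _ _ (by omega)) (by rw [gD_lt _ _ (by omega)]; exact hD)
          (by rw [tb_rem']; exact rem_gD_far b _ (by omega))
      · rw [cond_f (ble_f h1 : Nat.ble (Nat.add e 2) l = false)]
        obtain ⟨l', rfl⟩ : ∃ l', l = l' + 1 := ⟨l - 1, by omega⟩
        by_cases h2 : l' + 1 + g ≤ e + 1
        · rw [cond_t (ble_t h2 : Nat.ble (Nat.add (l' + 1) g) (Nat.add e 1) = true)]
          rw [show Nat.sub (l' + 1) 1 = l' from rfl,
            G_nested hΛ hf (tb d 0) b (by omega) (by omega), ← ih (rem e d) l' g x (by omega) hs]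
          exact sem_push' _ (by show e + 2 ≤ 2 * (k + 1); omega) (gD_lt _ _ (by omega))
            (by
              show gD (l' + 1) g b (tb d) (e + 1 + 2) = _
              rw [gD_gt _ _ (by omega)]; exact hD)
            (by rw [tb_rem']; exact rem_gD_nested b _ (by omega))
        · rw [cond_f (ble_f h2 : Nat.ble (Nat.add (l' + 1) g) (Nat.add e 1) = false)]
          obtain ⟨c, rfl⟩ : ∃ c, e = l' + c := ⟨e - l', by omega⟩
          obtain ⟨j, rfl⟩ : ∃ j, g = c + 1 + j := ⟨g - (c + 1), by omega⟩
          have e1 : Nat.sub (l' + 1) 1 = l' := rfl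
          have e2 : Nat.sub (c + 1 + j) 1 = c + j := by
            show c + 1 + j - 1 = c + j
            omega
          have e3 : Nat.sub (Nat.add (l' + c) 1) (l' + 1) = c := by
            show l' + c + 1 - (l' + 1) = c
            omega
          have e4 : Nat.sub (Nat.add (l' + 1) (c + 1 + j)) (Nat.add (l' + c) 2) = j := by
            show l' + 1 + (c + 1 + j) - (l' + c + 2) = j
            omega
          have e5 : Nat.add (l' + 1) (c + 1 + j) = l' + c + j + 2 := by
            show l' + 1 + (c + 1 + j) = l' + c + j + 2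
            omega
          have d0 : gD (l' + 1) (c + 1 + j) b (tb d) 0 = tb d 0 := gD_lt _ _ (by omega)
          have d1 : gD (l' + 1) (c + 1 + j) b (tb d) (l' + c + 1 + 1) = !tb d 0 := by
            rw [gD_mid _ _ (by omega) (by omega)]
            exact hD
          have p1 : sem u m Λ (k + 2) (gD (l' + 1) (c + 1 + j) b (tb d))
              (push (k + 1) (l' + c + 1) (opG k (rem (l' + c) d) l' (c + j) b x)) =
              G 0 (l' + c + 1) (tb d 0)
                (G l' (c + j) b (sem u m Λ k (tb (rem (l' + c) d)) x)) := by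
            rw [← ih (rem (l' + c) d) l' (c + j) x (by omega) hs]
            exact sem_push' _ (by omega) d0 d1
              (by rw [tb_rem']; exact rem_gD_cross1 _ _ _ _ _)
          by_cases h3 : tb d 0 = b
          · have p2 : sem u m Λ (k + 2) (gD (l' + 1) (c + 1 + j) b (tb d))
                (push (k + 1) (l' + c + j + 2) (opG k (rem (l' + c) d) l' c b x)) =
                G 0 (l' + c + j + 2) (tb d 0)
                  (G l' c b (sem u m Λ k (tb (rem (l' + c) d)) x)) := by
              rw [← ih (rem (l' + c) d) l' c x (by omega) hs]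
              refine sem_push' _ (by omega) d0 ?_
                (by rw [tb_rem']; exact rem_gD_cross2 _ _ _ _ _ (by rw [← h3]; exact hD))
              have := gD_right (l' + 1) (c + 1 + j) b (tb d)
              rw [h3, ← this]
              congr 1
              omega
            rw [cond_t (eqB_t h3), e1, e2, e3, e5, sem_add, sem_mulW, sem_fD]
            refine (congrArg₂ (fun y z => ((↑u⁻¹ : R) * (↑u⁻¹ : R)) • y + -(((↑u⁻¹ : R) * m) • z)) p1 p2).trans ?_

            rw [h3, G_cross_par hΛ hf' u.mul_inv b (by omega), sub_eq_add_neg]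
          · have h4 : tb d 0 = !b := by
              cases h5 : tb d 0 <;> cases h6 : b <;> simp_all
            have p3 : sem u m Λ (k + 2) (gD (l' + 1) (c + 1 + j) b (tb d))
                (push (k + 1) l' (opG k (rem (l' + c) d) (l' + c) j b x)) =
                G 0 l' (tb d 0)
                  (G (l' + c) j b (sem u m Λ k (tb (rem (l' + c) d)) x)) := by
              rw [← ih (rem (l' + c) d) (l' + c) j x (by omega) hs]
              refine sem_push' _ (by omega) d0 ?_
                (by
                  rw [tb_rem']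
                  exact rem_gD_cross3 _ _ _ _ _ (by rw [hD, h4, Bool.not_not]))
              rw [gD_left, h4, Bool.not_not]
            rw [cond_f (eqB_f h3), e1, e2, e4, sem_add, sem_mulW2, sem_fC]
            refine (congrArg₂ (fun y z => ((u : R) * (u : R)) • y + ((u : R) * m) • z) p1 p3).trans ?_

            rw [h4, G_cross_anti hΛ hf' u.mul_inv b (by omega)]

omit hΛ in
theorem sem_seqL {k : ℕ} (z : ℕ → ℕ → Vec k → Vec k)
    (hz : ∀ d j v, j + 2 ≤ 2 * k → Sup (2 * k) (tb d) →
      sem u m Λ k (swpD j (tb d)) (z d j v) = st (sem u m Λ k (tb d) v) (pos j))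
    (n d : ℕ) (v : Vec k) (h : n + 1 ≤ 2 * k) (hd : Sup (2 * k) (tb d)) :
    sem u m Λ k (movL n (tb d)) (seqL z n d v) = Lo n (sem u m Λ k (tb d) v) := by
  induction n generalizing d v with
  | zero =>
    rw [movL_zero]
    rfl
  | succ n ih =>
    rw [Lo_succ, ← hz d n v (by omega) hd, ← movL_succ, ← tb_swp]
    exact ih (swp n d) (z d n v) (by omega) (by rw [tb_swp]; exact hd.swp (by omega))

omit hΛ in
theorem Sup_mvR {n k d : ℕ} (h : Sup n (tb d)) (hk : k + 1 ≤ n) :
    Sup n (tb (mvR k d)) := by
  rw [tb_mvR]
  intro q hq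
  simp only [movR]
  split_ifs
  · omega
  · omega
  · omega
  · exact h _ hq

omit hΛ in
theorem sem_seqR {k : ℕ} (z : ℕ → ℕ → Vec k → Vec k)
    (hz : ∀ d j v, j + 2 ≤ 2 * k → Sup (2 * k) (tb d) →
      sem u m Λ k (swpD j (tb d)) (z d j v) = st (sem u m Λ k (tb d) v) (neg j))
    (n d : ℕ) (v : Vec k) (h : n + 1 ≤ 2 * k) (hd : Sup (2 * k) (tb d)) :
    sem u m Λ k (movR 0 n (tb d)) (seqR z n d v) = Ng 0 n (sem u m Λ k (tb d) v) := by
  rw [← tb_mvR]
  induction n with
  | zero => rfl
  | succ n ih =>
    have e1 := hz (mvR n d) n (seqR z n d v) (by omega) (Sup_mvR hd (by omega))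
    rw [Ng_succ, Nat.zero_add, ← ih (by omega), ← e1, mvR_succ, tb_swp]
    rfl

theorem sem_opZ (k : ℕ) (c : Bool) (d j : ℕ) (v : Vec k) (h : j + 2 ≤ 2 * k)
    (hd : Sup (2 * k) (tb d)) :
    sem u m Λ k (swpD j (tb d)) (opZ k c d j v) = st (sem u m Λ k (tb d) v) (cr c j) := by
  induction k generalizing c d j with
  | zero => omega
  | succ k ih =>
    have hL : ∀ (n d : ℕ) (x : Vec k), n + 1 ≤ 2 * k → Sup (2 * k) (tb d) →
        sem u m Λ k (movL n (tb d)) (seqL (opZ k true) n d x) = Lo n (sem u m Λ k (tb d) x) :=
      fun n d x hn hd => sem_seqL (opZ k true) (fun d j v hj hd => ih true d j v hj hd) n d x hn hd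
    have hR : ∀ (n d : ℕ) (x : Vec k), n + 1 ≤ 2 * k → Sup (2 * k) (tb d) →
        sem u m Λ k (movR 0 n (tb d)) (seqR (opZ k false) n d x) =
          Ng 0 n (sem u m Λ k (tb d) x) :=
      fun n d x hn hd => sem_seqR (opZ k false) (fun d j v hj hd => ih false d j v hj hd) n d x
        hn hd
    show sem u m Λ (k + 1) (swpD j (tb d)) (foldV (m := k) (k := k + 1) d _ v 0) = _
    refine fold_sound d _ _ (stL R (cr c j)) ?_ v 0
    intro e x he hD
    show _ = st (G 0 e (tb d 0) (sem u m Λ k (remD e (tb d)) x)) (cr c j)
    have hs := hd.rem he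
    have hf := T_of_mem (sem_mem (R := R) (u := u) (m := m) (Λ := Λ) k (remD e (tb d)) hs x)
    have hf' := sem_mem (R := R) (u := u) (m := m) (Λ := Λ) k (remD e (tb d)) hs x
    by_cases hj : j = 0
    · rw [cond_t (beq_t hj)]
      subst hj
      by_cases he0 : e = 0
      · rw [cond_t (beq_t he0)]
        subst he0
        have p1 : sem u m Λ (k + 1) (swpD 0 (tb d)) (push k 0 x) =
            G 0 0 (!tb d 0) (sem u m Λ k (remD 0 (tb d)) x) :=
          sem_push' x (by omega) (by rw [swpD_left]; exact hD)
            (by rw [swpD_right, Bool.not_not]) (rem_swp0 _)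
        rw [p1, G_zero, G_zero]
        cases c
        · exact (curlBN hΛ hf _ (by omega)).symm
        · exact (curlBP hΛ hf _ (by omega)).symm
      · rw [cond_f (beq_f he0)]
        obtain ⟨e', rfl⟩ : ∃ e', e = e' + 1 := ⟨e - 1, by omega⟩
        rw [show Nat.sub (e' + 1) 1 = e' from rfl]
        have p1 : sem u m Λ (k + 1) (swpD 0 (tb d)) (opG k (rem (e' + 1) d) 1 e' (tb d 0) x) =
            G 1 e' (tb d 0) (sem u m Λ k (remD (e' + 1) (tb d)) x) := by
          rw [← tb_rem', ← sem_opG hΛ k _ 1 e' _ x (by omega) (by rw [tb_rem']; exact hs),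
            tb_rem', gD1_swp _ hD]
        cases c
        · rw [cond_f rfl, p1, cr_false, G_neg_first hΛ hf _ he]
        · rw [cond_t rfl, cr_true]
          by_cases h3 : tb d 1 = tb d 0
          · have p2 : sem u m Λ (k + 1) (swpD 0 (tb d)) (push k (e' + 1) x) =
                G 0 (e' + 1) (tb d 0) (sem u m Λ k (remD (e' + 1) (tb d)) x) :=
              sem_push' x he (by rw [swpD_left]; exact h3)
                (by rw [swpD_gt _ (by omega)]; exact hD) (rem_swp0_par _ _ h3)
            rw [cond_t (eqB_t h3), sem_add, sem_mulW2, sem_fC, p1, p2,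
              G_pos_first_par hΛ hf' u.mul_inv _ he (by simp only [remD]; simpa using h3)]
          · have h4 : tb d 1 = !tb d 0 := by
              cases h5 : tb d 0 <;> cases h6 : tb d 1 <;> simp_all
            have hs2 : Sup (2 * k) (tb (rem (e' + 1) d)) := by rw [tb_rem']; exact hs
            have p2 : sem u m Λ (k + 1) (swpD 0 (tb d))
                (push k 0 (seqR (opZ k false) e' (rem (e' + 1) d) x)) =
                G 0 0 (!tb d 0) (Ng 0 e' (sem u m Λ k (remD (e' + 1) (tb d)) x)) := by
              rw [← tb_rem', ← hR e' _ x (by omega) hs2]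
              refine sem_push' _ (by omega) (by rw [swpD_left]; exact h4)
                (by rw [swpD_right, Bool.not_not]) ?_
              rw [tb_rem', movR_rem _ (hD.trans h4.symm)]
            rw [cond_f (eqB_f h3), sem_add, sem_mulW, sem_fD]
            refine (congrArg₂ (fun y z => ((↑u⁻¹ : R) * (↑u⁻¹ : R)) • y + -(((↑u⁻¹ : R) * m) • z)) p1 p2).trans ?_
            rw [G_pos_first_anti hΛ hf' u.mul_inv _ he (by simp only [remD]; simpa using h4),
              sub_eq_add_neg]
    · rw [cond_f (beq_f hj)]
      by_cases h1 : j + 1 ≤ e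
      · rw [cond_t (ble_t h1 : Nat.ble (Nat.add j 1) e = true)]
        obtain ⟨i, rfl⟩ : ∃ i, j = i + 1 := ⟨j - 1, by omega⟩
        rw [show Nat.sub (i + 1) 1 = i from rfl, G_cr_slide hΛ hf c _ (by omega) he, ← tb_rem']
        have hs2 : Sup (2 * k) (tb (rem e d)) := by rw [tb_rem']; exact hs
        refine Eq.trans ?_ (congrArg (G 0 e (tb d 0)) (ih c (rem e d) i x (by omega) hs2))
        exact sem_push' _ he (swpD_lt _ (by omega)) (by rw [swpD_gt _ (by omega)]; exact hD)
          (by rw [tb_rem']; exact rem_swp_slide _ (by omega))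
      · rw [cond_f (ble_f h1 : Nat.ble (Nat.add j 1) e = false)]
        by_cases h2 : e + 2 ≤ j
        · rw [cond_t (ble_t h2 : Nat.ble (Nat.add e 2) j = true)]
          obtain ⟨i, rfl⟩ : ∃ i, j = i + 2 := ⟨j - 2, by omega⟩
          rw [show Nat.sub (i + 2) 2 = i from rfl, G_cr_right hΛ hf c _ (by omega) (by omega),
            ← tb_rem']
          have hs2 : Sup (2 * k) (tb (rem e d)) := by rw [tb_rem']; exact hs
          refine Eq.trans ?_ (congrArg (G 0 e (tb d 0)) (ih c (rem e d) i x (by omega) hs2))
          exact sem_push' _ he (swpD_lt _ (by omega)) (by rw [swpD_lt _ (by omega)]; exact hD)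
            (by rw [tb_rem']; exact rem_swp_right _ (by omega))
        · rw [cond_f (ble_f h2 : Nat.ble (Nat.add e 2) j = false)]
          by_cases h3 : j = e + 1
          · rw [cond_t (beq_t h3 : Nat.beq j (Nat.add e 1) = true)]
            subst h3
            have p1 : sem u m Λ (k + 1) (swpD (e + 1) (tb d)) (push k (e + 1) x) =
                G 0 (e + 1) (tb d 0) (sem u m Λ k (remD e (tb d)) x) :=
              sem_push' x (by omega) (swpD_lt _ (by omega))
                (by rw [swpD_right]; exact hD) (rem_swp_next _ _)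
            cases c
            · rw [cond_f rfl, cr_false, G_neg_next hΛ hf]
              exact p1
            · rw [cond_t rfl, cr_true]
              by_cases h4 : tb d (e + 2) = tb d 0
              · have hs2 : Sup (2 * k) (tb (rem e d)) := by rw [tb_rem']; exact hs
                have p2 : sem u m Λ (k + 1) (swpD (e + 1) (tb d))
                    (opG k (mvL e (rem e d)) (e + 1) 0 (tb d 0)
                      (seqL (opZ k true) e (rem e d) x)) =
                    G (e + 1) 0 (tb d 0) (Lo e (sem u m Λ k (remD e (tb d)) x)) := by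
                  rw [← tb_rem', ← hL e _ x (by omega) hs2, ← tb_mvL,
                    ← sem_opG hΛ k _ (e + 1) 0 _ _ (by omega)
                      (by rw [tb_mvL]; exact hs2.mvL (by omega)), tb_mvL, tb_rem',
                    gD_movL e _ _ hD h4 rfl]
                rw [cond_t (eqB_t h4 : eqB (tb d (Nat.add e 2)) (tb d 0) = true), sem_add,
                  sem_mulW, sem_fD]
                refine (congrArg₂ (fun y z => ((↑u⁻¹ : R) * (↑u⁻¹ : R)) • y + -(((↑u⁻¹ : R) * m) • z)) p1 p2).trans ?_
                rw [G_pos_next_anti hΛ hf' u.mul_inv _ (by omega)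
                  (by simp only [remD]; simpa using h4), sub_eq_add_neg]
              · have h5 : tb d (e + 2) = !tb d 0 := by
                  cases h5 : tb d 0 <;> cases h6 : tb d (e + 2) <;> simp_all
                have h6 : swpD (e + 1) (tb d) = tb d := swp_par _ _ (h5.trans hD.symm)
                have p2 : sem u m Λ (k + 1) (swpD (e + 1) (tb d)) (push k e x) =
                    G 0 e (tb d 0) (sem u m Λ k (remD e (tb d)) x) := by
                  rw [h6]
                  exact sem_push' x (by omega) rfl hD rfl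
                rw [cond_f (eqB_f h4 : eqB (tb d (Nat.add e 2)) (tb d 0) = false), sem_add,
                  sem_mulW2, sem_fC]
                refine (congrArg₂ (fun y z => ((u : R) * (u : R)) • y + ((u : R) * m) • z) p1 p2).trans ?_
                rw [G_pos_next_par hΛ hf' u.mul_inv _ (by omega)
                  (by simp only [remD]; simpa using h5)]
          · rw [cond_f (beq_f h3 : Nat.beq j (Nat.add e 1) = false)]
            obtain rfl : j = e := by omega
            obtain ⟨e', rfl⟩ : ∃ e', j = e' + 1 := ⟨j - 1, by omega⟩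
            rw [show Nat.sub (e' + 1) 1 = e' from rfl]
            have p1 : sem u m Λ (k + 1) (swpD (e' + 1) (tb d)) (push k e' x) =
                G 0 e' (tb d 0) (sem u m Λ k (remD (e' + 1) (tb d)) x) :=
              sem_push' x (by omega) (swpD_lt _ (by omega))
                (by rw [swpD_left]; exact hD) (rem_swp_end _ _)
            cases c
            · rw [cond_f rfl, cr_false]
              by_cases h4 : tb d (e' + 1) = tb d 0
              · have hs2 : Sup (2 * k) (tb (rem (e' + 1) d)) := by rw [tb_rem']; exact hs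
                have p2 : sem u m Λ (k + 1) (swpD (e' + 1) (tb d))
                    (opG k (mvL e' (rem (e' + 1) d)) (e' + 1) 0 (cond (tb d 0) false true)
                      (seqL (opZ k true) e' (rem (e' + 1) d) x)) =
                    G (e' + 1) 0 (!tb d 0) (Lo e' (sem u m Λ k (remD (e' + 1) (tb d)) x)) := by
                  have e7 : (cond (tb d 0) false true) = !tb d 0 := by
                    cases tb d 0 <;> rfl
                  rw [e7, ← tb_rem', ← hL e' _ x (by omega) hs2, ← tb_mvL,
                    ← sem_opG hΛ k _ (e' + 1) 0 _ _ (by omega)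
                      (by rw [tb_mvL]; exact hs2.mvL (by omega)), tb_mvL, tb_rem',
                    gD_movL' e' _ _ h4 hD rfl]
                rw [cond_t (eqB_t h4), sem_add, sem_mulW2, sem_fC]
                refine (congrArg₂ (fun y z => ((u : R) * (u : R)) • y + ((u : R) * m) • z) p1 p2).trans ?_
                rw [G_neg_end_anti hΛ hf' u.mul_inv _ (by omega)
                    (by simp only [remD]; simpa using h4)]
              · have h5 : tb d (e' + 1) = !tb d 0 := by
                  cases h5 : tb d 0 <;> cases h6 : tb d (e' + 1) <;> simp_all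
                have h6 : swpD (e' + 1) (tb d) = tb d := swp_par _ _ (hD.trans h5.symm)
                have p2 : sem u m Λ (k + 1) (swpD (e' + 1) (tb d)) (push k (e' + 1) x) =
                    G 0 (e' + 1) (tb d 0) (sem u m Λ k (remD (e' + 1) (tb d)) x) := by
                  rw [h6]
                  exact sem_push' x (by omega) rfl hD rfl
                rw [cond_f (eqB_f h4), sem_add, sem_mulW, sem_fD, p1, p2,
                  G_neg_end_par hΛ hf' u.mul_inv _ (by omega)
                    (by simp only [remD]; simpa using h5), sub_eq_add_neg]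
            · rw [cond_t rfl, cr_true, G_pos_end hΛ hf _ he]
              exact p1

end

end

end Pool.Agent.T2H90.HX
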